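import Pool.Agent.Run7.h182.MQ.Pr
import Pool.Agent.Run7.h771.MQ.C4

/-!
# The Schwinger-Dyson equation
(piece C of the interface `Run7.h630.MQ`)
-/

set_option linter.unusedSectionVars false
set_option linter.unusedVariables false

open MeasureTheory Matrix Filter Topology
open scoped Matrix.Norms.Frobenius ComplexConjugate

namespace Run7.h182.MQ

open Run7.h4.YM Run7.h630.ML Run7.h630.MQ Run7.h771.MQ

noncomputable section

variable {N n L l : ℕ}

/-! ### the basis -/

/-- the units `1`, `i` -/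
def ε (b : Bool) : ℂ := if b then Complex.I else 1

/-- the coordinates -/
def co (b : Bool) (z : ℂ) : ℝ := (conj (ε b) * z).re

lemma norm_ε (b : Bool) : ‖ε b‖ = 1 := by
  unfold ε
  split_ifs <;> simp

lemma abs_co (b : Bool) (z : ℂ) : |co b z| ≤ ‖z‖ := by
  unfold co
  refine (Complex.abs_re_le_norm _).trans (le_of_eq ?_)
  rw [norm_mul, RCLike.norm_conj, norm_ε, one_mul]

lemma sum_co (z : ℂ) : ∑ b : Bool, co b z • ε b = z := by
  rw [Fintype.sum_bool]
  unfold co ε
  simp only [if_true, Bool.false_eq_true, if_false]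
  apply Complex.ext <;> simp

/-- the elements of the frame -/
def Ab (N : ℕ) (s : (Fin N × Fin N) × Bool) : Mt N := pr (Matrix.single s.1.1 s.1.2 (ε s.2))

lemma sum_frame [NeZero N] {Y : Mt N} (h1 : Yᴴ = -Y) (h2 : trace Y = 0) :
    ∑ s : (Fin N × Fin N) × Bool, co s.2 (Y s.1.1 s.1.2) • Ab N s = Y := by
  have h3 : Y = ∑ s : (Fin N × Fin N) × Bool,
      co s.2 (Y s.1.1 s.1.2) • Matrix.single s.1.1 s.1.2 (ε s.2) := by
    rw [Fintype.sum_prod_type]
    have h4 : ∀ q : Fin N × Fin N, ∑ b : Bool, co b (Y q.1 q.2) •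
        Matrix.single q.1 q.2 (ε b) = Matrix.single q.1 q.2 (Y q.1 q.2) := by
      intro q
      rw [Fintype.sum_bool, Matrix.smul_single, Matrix.smul_single, ← Matrix.single_add,
        ← Fintype.sum_bool (f := fun b => co b (Y q.1 q.2) • ε b), sum_co]
    simp only [h4]
    rw [Fintype.sum_prod_type]
    exact Matrix.matrix_eq_sum_single Y
  conv_rhs => rw [← pr_eq h1 h2]
  have h5 : pr Y = prL N Y := rfl
  rw [h5]
  conv_rhs => rw [h3]
  rw [map_sum]
  refine Finset.sum_congr rfl fun s _ => ?_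
  rw [map_smul]
  rfl

lemma norm_Ab [NeZero N] (s : (Fin N × Fin N) × Bool) : ‖Ab N s‖ ≤ 1 := by
  unfold Ab
  refine (pr_norm _).trans ?_
  have h1 : ‖(Matrix.single s.1.1 s.1.2 (ε s.2) : Mt N)‖ ^ 2 = 1 := by
    rw [nsq, Finset.sum_eq_single s.1.1, Finset.sum_eq_single s.1.2]
    · rw [Matrix.single_apply_same, norm_ε, one_pow]
    · intro j _ hj
      simp [Matrix.single, hj.symm]
    · intro h; exact absurd (Finset.mem_univ _) h
    · intro i _ hi
      refine Finset.sum_eq_zero fun j _ => ?_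
      simp [Matrix.single, hi.symm]
    · intro h; exact absurd (Finset.mem_univ _) h
  exact (abs_le_of_sq_le_sq' (a := ‖(Matrix.single s.1.1 s.1.2 (ε s.2) : Mt N)‖) (b := 1)
    (by rw [h1]; norm_num) zero_le_one).2

/-! ### linearity -/

section lin

variable [NeZero n] [NeZero L] [NeZero l]

/-- the derivative of the action as a linear map -/
def dSL (k : ℕ) (U : Link n L l → SU N) : (Site n L l → Mt N) →ₗ[ℝ] ℝ where
  toFun := dS k U
  map_add' K K' := by
    unfold dS
    rw [← neg_add, ← Finset.sum_add_distrib]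
    congr 1
    refine Finset.sum_congr rfl fun x _ => ?_
    rw [← Finset.sum_add_distrib]
    refine Finset.sum_congr rfl fun j _ => ?_
    rw [← Complex.add_re, ← mul_add, ← trace_add]
    congr 3
    rw [Pi.add_apply, Pi.add_apply]
    noncomm_ring
  map_smul' r K := by
    unfold dS
    rw [RingHom.id_apply, smul_neg, Finset.smul_sum]
    congr 1
    refine Finset.sum_congr rfl fun x _ => ?_
    rw [Finset.smul_sum]
    refine Finset.sum_congr rfl fun j _ => ?_
    rw [Pi.smul_apply, Pi.smul_apply, mul_smul_comm, mul_smul_comm, smul_mul_assoc,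
      smul_mul_assoc, ← smul_sub, trace_smul, mul_smul_comm, Complex.smul_re]

/-- the derivative of the loops as a linear map -/
def dWL (c : ℕ) (U : Link n L l → SU N) (x : Site n L l) : (Site n L l → Mt N) →ₗ[ℝ] ℂ where
  toFun K := dW c U K x
  map_add' K K' := by
    unfold dW
    rw [← mul_add, ← Finset.sum_add_distrib]
    congr 1
    refine Finset.sum_congr rfl fun t _ => ?_
    rw [← trace_add, ← add_mul]
    rfl
  map_smul' r K := by
    unfold dW
    rw [RingHom.id_apply, ← mul_smul_comm, Finset.smul_sum]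
    congr 1
    refine Finset.sum_congr rfl fun t _ => ?_
    rw [Pi.smul_apply, smul_mul_assoc, trace_smul]

/-- the derivative of the modes as a linear map -/
def dmdL (k : ℕ) (U : Link n L l → SU N) (i : ℕ × ℤ) (u : ZMod n × ZMod L) :
    (Site n L l → Mt N) →ₗ[ℝ] ℂ :=
  ∑ t ∈ Finset.range l, Complex.exp (Complex.I * (mass N k i * t / l)) •
    dWL i.1 U (u.1, u.2, 0, 1 + (t : ZMod l))

lemma dmdL_apply (k : ℕ) (U : Link n L l → SU N) (i : ℕ × ℤ) (u : ZMod n × ZMod L)
    (K : Site n L l → Mt N) : dmdL k U i u K = dmd k U K i u := by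
  unfold dmdL dmd
  rw [LinearMap.sum_apply]
  rfl

/-- the exponent -/
def Xf (k : ℕ) (J : Finset (ℕ × ℤ)) (w : ℕ × ℤ → ZMod n × ZMod L → ℂ)
    (U : Link n L l → SU N) : ℝ := ∑ i ∈ J, (∑ u, w i u * md k U i u).re

/-- the derivative of the exponent as a linear map -/
def dXL (k : ℕ) (J : Finset (ℕ × ℤ)) (w : ℕ × ℤ → ZMod n × ZMod L → ℂ)
    (U : Link n L l → SU N) : (Site n L l → Mt N) →ₗ[ℝ] ℝ :=
  ∑ i ∈ J, Complex.reLm ∘ₗ (∑ u, w i u • dmdL k U i u)

lemma dXL_apply (k : ℕ) (J : Finset (ℕ × ℤ)) (w : ℕ × ℤ → ZMod n × ZMod L → ℂ)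
    (U : Link n L l → SU N) (K : Site n L l → Mt N) :
    dXL k J w U K = ∑ i ∈ J, (∑ u, w i u * dmd k U K i u).re := by
  unfold dXL
  rw [LinearMap.sum_apply]
  refine Finset.sum_congr rfl fun i _ => ?_
  rw [LinearMap.comp_apply, LinearMap.sum_apply]
  show (∑ u, (w i u • dmdL k U i u) K).re = _
  congr 1
  refine Finset.sum_congr rfl fun u _ => ?_
  rw [LinearMap.smul_apply, dmdL_apply, smul_eq_mul]

lemma sum_single_frame [NeZero N] {Y : Site n L l → Mt N} (hY : Sk Y) :
    ∑ s : Site n L l × ((Fin N × Fin N) × Bool),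
      co s.2.2 (Y s.1 s.2.1.1 s.2.1.2) • (Pi.single s.1 (Ab N s.2) : Site n L l → Mt N) = Y := by
  rw [Fintype.sum_prod_type]
  have h1 : ∀ x : Site n L l, ∑ s : (Fin N × Fin N) × Bool,
      co s.2 (Y x s.1.1 s.1.2) • (Pi.single x (Ab N s) : Site n L l → Mt N) =
        Pi.single x (Y x) := by
    intro x
    conv_rhs => rw [← sum_frame (hY x).1 (hY x).2]
    funext y
    rw [Finset.sum_apply]
    by_cases h : y = x
    · subst h
      rw [Pi.single_eq_same]
      refine Finset.sum_congr rfl fun s _ => ?_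
      rw [Pi.smul_apply, Pi.single_eq_same]
    · rw [Pi.single_eq_of_ne h]
      refine Finset.sum_eq_zero fun s _ => ?_
      rw [Pi.smul_apply, Pi.single_eq_of_ne h, smul_zero]
  rw [Finset.sum_congr rfl fun x _ => h1 x]
  exact Finset.univ_sum_single Y

lemma Yv_sk [NeZero N] (c : ℕ) (a : Site n L l → ℂ) (U : Link n L l → SU N) :
    Sk (Yv c a U) := fun x => ⟨pr_skew _, pr_trace _⟩

end lin

end

end Run7.h182.MQ
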