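import Pool.Agent.Run7.h182.MQ.C
import Pool.Agent.Run7.h4.YM.Sys

/-!
# The Schwinger-Dyson equation
(piece C of the interface `Run7.h630.MQ`)
-/

set_option linter.unusedSectionVars false
set_option linter.unusedVariables false

open MeasureTheory Matrix Filter Topology
open scoped Matrix.Norms.Frobenius ComplexConjugate

namespace Run7.h182.MQ

open Run7.h4.YM Run7.h630.ML Run7.h630.MQ Run7.h771.MQ

noncomputable section

variable {N n L l : ℕ}

/-! ### continuity -/

lemma cont_lp (x : Site n L l) : Continuous fun U : Link n L l → SU N =>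
    Run7.h630.MQ.lp U x := by
  unfold Run7.h630.MQ.lp
  have h : ∀ T : List ℕ, Continuous fun U : Link n L l → SU N =>
      (T.map fun t : ℕ => U (2, x + t • dir 2)).prod := by
    intro T
    induction T with
    | nil => exact continuous_const
    | cons a T ih =>
      simp only [List.map_cons, List.prod_cons]
      exact (continuous_apply _).mul ih
  exact h _

lemma cont_lpc (c : ℕ) (x : Site n L l) : Continuous fun U : Link n L l → SU N =>
    (Run7.h630.MQ.lp U x ^ c).1 := continuous_subtype_val.comp ((cont_lp x).pow c)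

lemma cont_W (c : ℕ) (x : Site n L l) : Continuous fun U : Link n L l → SU N => W c U x :=
  (cont_lpc c x).matrix_trace

lemma cont_md (k : ℕ) (i : ℕ × ℤ) (u : ZMod n × ZMod L) :
    Continuous fun U : Link n L l → SU N => md k U i u := by
  unfold md
  exact continuous_finsetSum _ fun t _ => continuous_const.mul (cont_W _ _)

lemma cont_dW (c : ℕ) (K : Site n L l → Mt N) (x : Site n L l) :
    Continuous fun U : Link n L l → SU N => dW c U K x := by
  unfold dW
  exact continuous_const.mul (continuous_finsetSum _ fun t _ =>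
    (continuous_const.mul (cont_lpc _ _)).matrix_trace)

lemma cont_dmd (k : ℕ) (K : Site n L l → Mt N) (i : ℕ × ℤ) (u : ZMod n × ZMod L) :
    Continuous fun U : Link n L l → SU N => dmd k U K i u := by
  unfold dmd
  exact continuous_finsetSum _ fun t _ => continuous_const.mul (cont_dW _ _ _)

lemma cont_link (e : Link n L l) : Continuous fun U : Link n L l → SU N => (U e).1 :=
  continuous_subtype_val.comp (continuous_apply e)

lemma cont_plaq (x : Site n L l) (i j : Fin 4) :
    Continuous fun U : Link n L l → SU N => (plaq U x i j).1 := by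
  have h : Continuous fun U : Link n L l → SU N =>
      U (i, x) * U (j, x + dir i) * (U (i, x + dir j))⁻¹ * (U (j, x))⁻¹ :=
    (((continuous_apply (i, x)).mul (continuous_apply (j, x + dir i))).mul
      (continuous_apply (i, x + dir j)).inv).mul (continuous_apply (j, x)).inv
  exact continuous_subtype_val.comp h

lemma cont_dS [NeZero n] [NeZero L] [NeZero l] (k : ℕ) (K : Site n L l → Mt N) :
    Continuous fun U : Link n L l → SU N => dS k U K := by
  unfold dS
  refine (continuous_finsetSum _ fun x _ => continuous_finsetSum _ fun j _ =>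
    Complex.continuous_re.comp (continuous_const.mul (Continuous.matrix_trace ?_))).neg
  exact ((((cont_link _).mul continuous_const).mul (cont_link _).matrix_conjTranspose).mul
    (cont_plaq _ _ _)).sub ((cont_plaq _ _ _).mul continuous_const)

lemma cont_pr : Continuous (pr : Mt N → Mt N) :=
  (LinearMap.toContinuousLinearMap (prL N)).continuous

lemma cont_Yv (c : ℕ) (a : Site n L l → ℂ) (x : Site n L l) :
    Continuous fun U : Link n L l → SU N => Yv c a U x := by
  unfold Yv
  have h : Continuous fun U : Link n L l → SU N => a x • (Run7.h630.MQ.lp U x ^ c).1 :=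
    (cont_lpc c x).const_smul (a x)
  exact cont_pr.comp h

lemma cont_co (b : Bool) : Continuous (co b) := by
  unfold co
  exact Complex.continuous_re.comp (continuous_const.mul continuous_id)

/-! ### the derivatives -/

section main

variable [NeZero N] [NeZero n] [NeZero L] [NeZero l]

lemma cont_Xf (k : ℕ) (J : Finset (ℕ × ℤ)) (w : ℕ × ℤ → ZMod n × ZMod L → ℂ) :
    Continuous fun U : Link n L l → SU N => Xf k J w U := by
  unfold Xf
  exact continuous_finsetSum _ fun i _ => Complex.continuous_re.comp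
    (continuous_finsetSum _ fun u _ => continuous_const.mul (cont_md _ _ _))

lemma cont_dXL (k : ℕ) (J : Finset (ℕ × ℤ)) (w : ℕ × ℤ → ZMod n × ZMod L → ℂ)
    (K : Site n L l → Mt N) : Continuous fun U : Link n L l → SU N => dXL k J w U K := by
  simp only [dXL_apply]
  exact continuous_finsetSum _ fun i _ => Complex.continuous_re.comp
    (continuous_finsetSum _ fun u _ => continuous_const.mul (cont_dmd _ _ _ _))

lemma deriv_Xf (k : ℕ) (J : Finset (ℕ × ℤ)) (w : ℕ × ℤ → ZMod n × ZMod L → ℂ)
    (U : Link n L l → SU N) {K : Site n L l → Mt N} (hK : Sk K) :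
    HasDerivAt (fun t : ℝ => Xf k J w (fl K t U)) (dXL k J w U K) 0 := by
  rw [dXL_apply]
  unfold Xf
  refine HasDerivAt.fun_sum fun i _ => ?_
  have h1 : HasDerivAt (fun t : ℝ => ∑ u, w i u * md k (fl K t U) i u)
      (∑ u, w i u * dmd k U K i u) 0 := by
    refine HasDerivAt.fun_sum fun u _ => HasDerivAt.const_mul _ ?_
    unfold md dmd
    exact HasDerivAt.fun_sum fun t _ => HasDerivAt.const_mul _
      (t_C1 N n L l U K hK i.1 (u.1, u.2, 0, 1 + (t : ZMod l)))
  exact Complex.reCLM.hasFDerivAt.comp_hasDerivAt (0 : ℝ) h1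

/-- the weight -/
def ew (k : ℕ) (β r : ℝ) (J : Finset (ℕ × ℤ)) (w : ℕ × ℤ → ZMod n × ZMod L → ℂ)
    (U : Link n L l → SU N) : ℂ :=
  Complex.exp (Complex.I * ((r * Xf k J w U : ℝ) : ℂ)) * ((Real.exp (-(β * action k U)) : ℝ) : ℂ)

lemma cont_ew (k : ℕ) (β r : ℝ) (J : Finset (ℕ × ℤ)) (w : ℕ × ℤ → ZMod n × ZMod L → ℂ) :
    Continuous fun U : Link n L l → SU N => ew k β r J w U := by
  unfold ew
  exact (Complex.continuous_exp.comp (continuous_const.mul (Complex.continuous_ofReal.comp
    (continuous_const.mul (cont_Xf k J w))))).mul (Complex.continuous_ofReal.comp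
      (Real.continuous_exp.comp (continuous_const.mul (cont_action k)).neg))

lemma deriv_ew (k : ℕ) (β r : ℝ) (J : Finset (ℕ × ℤ)) (w : ℕ × ℤ → ZMod n × ZMod L → ℂ)
    (U : Link n L l → SU N) {K : Site n L l → Mt N} (hK : Sk K) :
    HasDerivAt (fun t : ℝ => ew k β r J w (fl K t U))
      (ew k β r J w U * (Complex.I * ((r * dXL k J w U K : ℝ) : ℂ) -
        ((β * dS k U K : ℝ) : ℂ))) 0 := by
  have h1 : HasDerivAt (fun t : ℝ => ((r * Xf k J w (fl K t U) : ℝ) : ℂ))
      ((r * dXL k J w U K : ℝ) : ℂ) 0 := ((deriv_Xf k J w U hK).const_mul r).ofReal_comp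
  have h2 : HasDerivAt (fun t : ℝ => ((Real.exp (-(β * action k (fl K t U))) : ℝ) : ℂ))
      ((Real.exp (-(β * action k (fl K 0 U))) * (-(β * dS k U K)) : ℝ) : ℂ) 0 :=
    (((t_C2 N n L l k U K hK).const_mul β).neg.exp).ofReal_comp
  have h3 := ((h1.const_mul Complex.I).cexp).mul h2
  unfold ew
  refine h3.congr_deriv ?_
  simp only [fl_zero]
  push_cast
  ring

/-- the divergence term of one element of the frame -/
def dco (c : ℕ) (a : Site n L l → ℂ) (s : Site n L l × ((Fin N × Fin N) × Bool))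
    (U : Link n L l → SU N) : ℝ :=
  co s.2.2 ((pr (a s.1 • ∑ r ∈ Finset.range c, (Run7.h630.MQ.lp U s.1 ^ r).1 * Ab N s.2 *
    (Run7.h630.MQ.lp U s.1 ^ (c - r)).1)) s.2.1.1 s.2.1.2)

lemma cont_dco (c : ℕ) (a : Site n L l → ℂ) (s : Site n L l × ((Fin N × Fin N) × Bool)) :
    Continuous fun U : Link n L l → SU N => dco c a s U := by
  unfold dco
  refine (cont_co _).comp ?_
  have h1 : Continuous fun U : Link n L l → SU N =>
      pr (a s.1 • ∑ r ∈ Finset.range c, (Run7.h630.MQ.lp U s.1 ^ r).1 * Ab N s.2 *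
        (Run7.h630.MQ.lp U s.1 ^ (c - r)).1) := by
    have h2 : Continuous fun U : Link n L l → SU N =>
        ∑ r ∈ Finset.range c, (Run7.h630.MQ.lp U s.1 ^ r).1 * Ab N s.2 *
          (Run7.h630.MQ.lp U s.1 ^ (c - r)).1 := continuous_finsetSum _ fun r _ =>
      ((cont_lpc r s.1).mul continuous_const).mul (cont_lpc (c - r) s.1)
    have h3 : Continuous fun U : Link n L l → SU N =>
        a s.1 • ∑ r ∈ Finset.range c, (Run7.h630.MQ.lp U s.1 ^ r).1 * Ab N s.2 *
          (Run7.h630.MQ.lp U s.1 ^ (c - r)).1 := h2.const_smul (a s.1)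
    exact cont_pr.comp h3
  exact h1.matrix_elem _ _

lemma norm_mul_left' (g : SU N) (A : Mt N) : ‖g.1 * A‖ = ‖A‖ := by
  have h1 : ‖g.1 * A‖ ^ 2 = ‖A‖ ^ 2 := by
    rw [← ip_self, ← ip_self]
    unfold ip
    rw [conjTranspose_mul, Matrix.mul_assoc, ← Matrix.mul_assoc g.1ᴴ]
    have := star_mul_self' g
    rw [Matrix.star_eq_conjTranspose] at this
    rw [this, Matrix.one_mul]
  exact (pow_left_inj₀ (norm_nonneg _) (norm_nonneg _) two_ne_zero).1 h1

lemma norm_mul_right' (g : SU N) (A : Mt N) : ‖A * g.1‖ = ‖A‖ := by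
  have h1 : ‖A * g.1‖ ^ 2 = ‖A‖ ^ 2 := by
    rw [← ip_self, ← ip_self]
    unfold ip
    rw [conjTranspose_mul, trace_mul_comm, Matrix.mul_assoc, ← Matrix.mul_assoc g.1]
    have := mul_star_self' g
    rw [Matrix.star_eq_conjTranspose] at this
    rw [this, Matrix.one_mul, trace_mul_comm]
  exact (pow_left_inj₀ (norm_nonneg _) (norm_nonneg _) two_ne_zero).1 h1

lemma abs_dco (c : ℕ) (a : Site n L l → ℂ) (s : Site n L l × ((Fin N × Fin N) × Bool))
    (U : Link n L l → SU N) : |dco c a s U| ≤ c * ‖a s.1‖ := by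
  unfold dco
  refine (abs_co _ _).trans ((entry_norm _ _ _).trans ((pr_norm _).trans ?_))
  rw [norm_smul, mul_comm]
  refine mul_le_mul_of_nonneg_right ?_ (norm_nonneg _)
  refine (norm_sum_le _ _).trans ?_
  have h1 : ∀ r ∈ Finset.range c, ‖(Run7.h630.MQ.lp U s.1 ^ r).1 * Ab N s.2 *
      (Run7.h630.MQ.lp U s.1 ^ (c - r)).1‖ ≤ 1 := by
    intro r _
    rw [norm_mul_right', norm_mul_left']
    exact norm_Ab _
  refine (Finset.sum_le_sum h1).trans ?_
  simp

/-- the coefficient -/
def cf (c : ℕ) (a : Site n L l → ℂ) (s : Site n L l × ((Fin N × Fin N) × Bool))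
    (U : Link n L l → SU N) : ℝ := co s.2.2 (Yv c a U s.1 s.2.1.1 s.2.1.2)

lemma cont_cf (c : ℕ) (a : Site n L l → ℂ) (s : Site n L l × ((Fin N × Fin N) × Bool)) :
    Continuous fun U : Link n L l → SU N => cf c a s U :=
  (cont_co _).comp ((cont_Yv c a s.1).matrix_elem _ _)

lemma Ab_skew (s : (Fin N × Fin N) × Bool) : (Ab N s)ᴴ = -Ab N s := pr_skew _

lemma Ab_trace (s : (Fin N × Fin N) × Bool) : trace (Ab N s) = 0 := pr_trace _

lemma deriv_cf (c : ℕ) (a : Site n L l → ℂ) (s : Site n L l × ((Fin N × Fin N) × Bool))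
    (U : Link n L l → SU N) :
    HasDerivAt (fun t : ℝ => cf c a s (fl (Pi.single s.1 (Ab N s.2)) t U)) (dco c a s U) 0 := by
  have h1 := t_C3 N n L l U s.1 (Ab N s.2) (Ab_skew _) (Ab_trace _) c a
  have h2 : HasDerivAt (fun t : ℝ => Yv c a (fl (Pi.single s.1 (Ab N s.2)) t U) s.1
      s.2.1.1 s.2.1.2) ((pr (a s.1 • ∑ r ∈ Finset.range c, (Run7.h630.MQ.lp U s.1 ^ r).1 *
        Ab N s.2 * (Run7.h630.MQ.lp U s.1 ^ (c - r)).1)) s.2.1.1 s.2.1.2) 0 := by
    have := (LinearMap.toContinuousLinearMap
      (Matrix.entryLinearMap ℝ ℂ s.2.1.1 s.2.1.2 : Mt N →ₗ[ℝ] ℂ)).hasFDerivAt.comp_hasDerivAt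
        (0 : ℝ) h1
    exact this
  unfold cf dco co
  exact Complex.reCLM.hasFDerivAt.comp_hasDerivAt (0 : ℝ) (h2.const_mul (conj (ε s.2.2)))

/-- **C** -/
theorem t_C' : S_C := by
  intro N n L l k _ _ _ _ _ _ μ _ _ β c a J w
  refine ⟨fun U => ∑ s, dco c a s U, continuous_finsetSum _ fun s _ => cont_dco c a s,
    fun U => ?_, fun r => ?_⟩
  · refine (Finset.abs_sum_le_sum_abs _ _).trans ?_
    refine (Finset.sum_le_sum fun s _ => abs_dco c a s U).trans (le_of_eq ?_)
    rw [Fintype.sum_prod_type, Finset.mul_sum]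
    refine Finset.sum_congr rfl fun x _ => ?_
    simp only [Finset.sum_const, Finset.card_univ, Fintype.card_prod, Fintype.card_fin,
      Fintype.card_bool, nsmul_eq_mul]
    push_cast
    ring
  · have hs : ∀ s : Site n L l × ((Fin N × Fin N) × Bool),
        Continuous (fun U : Link n L l → SU N => ((dco c a s U : ℝ) : ℂ) * ew k β r J w U +
          ((cf c a s U : ℝ) : ℂ) * (ew k β r J w U * (Complex.I *
            ((r * dXL k J w U (Pi.single s.1 (Ab N s.2)) : ℝ) : ℂ) -
              ((β * dS k U (Pi.single s.1 (Ab N s.2)) : ℝ) : ℂ)))) := by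
      intro s
      exact ((Complex.continuous_ofReal.comp (cont_dco c a s)).mul (cont_ew k β r J w)).add
        ((Complex.continuous_ofReal.comp (cont_cf c a s)).mul ((cont_ew k β r J w).mul
          ((continuous_const.mul (Complex.continuous_ofReal.comp (continuous_const.mul
            (cont_dXL k J w _)))).sub (Complex.continuous_ofReal.comp (continuous_const.mul
              (cont_dS k _))))))
    have h0 : ∀ s : Site n L l × ((Fin N × Fin N) × Bool),
        ∫ U : Link n L l → SU N, (((dco c a s U : ℝ) : ℂ) * ew k β r J w U +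
          ((cf c a s U : ℝ) : ℂ) * (ew k β r J w U * (Complex.I *
            ((r * dXL k J w U (Pi.single s.1 (Ab N s.2)) : ℝ) : ℂ) -
              ((β * dS k U (Pi.single s.1 (Ab N s.2)) : ℝ) : ℂ))))
          ∂(Measure.pi fun _ : Link n L l => μ) = 0 := by
      intro s
      have hK : Sk (Pi.single s.1 (Ab N s.2) : Site n L l → Mt N) :=
        sk_single s.1 (Ab_skew _) (Ab_trace _)
      refine t_C4 N n L l μ (Pi.single s.1 (Ab N s.2)) hK
        (fun U => ((cf c a s U : ℝ) : ℂ) * ew k β r J w U) _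
        ((Complex.continuous_ofReal.comp (cont_cf c a s)).mul (cont_ew k β r J w)) (hs s)
        fun U => ?_
      have h1 := ((deriv_cf c a s U).ofReal_comp).mul (deriv_ew k β r J w U hK)
      refine h1.congr_deriv ?_
      simp only [fl_zero]
    have h1 : ∫ U : Link n L l → SU N, ∑ s : Site n L l × ((Fin N × Fin N) × Bool),
        (((dco c a s U : ℝ) : ℂ) * ew k β r J w U +
          ((cf c a s U : ℝ) : ℂ) * (ew k β r J w U * (Complex.I *
            ((r * dXL k J w U (Pi.single s.1 (Ab N s.2)) : ℝ) : ℂ) -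
              ((β * dS k U (Pi.single s.1 (Ab N s.2)) : ℝ) : ℂ))))
          ∂(Measure.pi fun _ : Link n L l => μ) = 0 := by
      rw [integral_finsetSum _ fun s _ => (hs s).integrable_of_hasCompactSupport
        (HasCompactSupport.of_compactSpace _)]
      exact Finset.sum_eq_zero fun s _ => h0 s
    rw [← neg_eq_zero, ← integral_neg, ← h1]
    refine integral_congr_ae (Eventually.of_forall fun U => ?_)
    simp only
    have e1 : ∑ s : Site n L l × ((Fin N × Fin N) × Bool), cf c a s U *
        dXL k J w U (Pi.single s.1 (Ab N s.2)) = dXL k J w U (Yv c a U) := by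
      conv_rhs => rw [← sum_single_frame (Yv_sk c a U)]
      rw [map_sum]
      refine Finset.sum_congr rfl fun s _ => ?_
      rw [map_smul]
      rfl
    have e2 : ∑ s : Site n L l × ((Fin N × Fin N) × Bool), cf c a s U *
        dS k U (Pi.single s.1 (Ab N s.2)) = dS k U (Yv c a U) := by
      have e3 : ∀ K, dS k U K = dSL k U K := fun K => rfl
      conv_rhs => rw [← sum_single_frame (Yv_sk c a U)]
      rw [e3, map_sum]
      refine Finset.sum_congr rfl fun s _ => ?_
      rw [map_smul, e3]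
      rfl
    rw [← dXL_apply, ← e1, ← e2]
    have e4 : (∑ s : Site n L l × ((Fin N × Fin N) × Bool),
        (((dco c a s U : ℝ) : ℂ) * ew k β r J w U +
          ((cf c a s U : ℝ) : ℂ) * (ew k β r J w U * (Complex.I *
            ((r * dXL k J w U (Pi.single s.1 (Ab N s.2)) : ℝ) : ℂ) -
              ((β * dS k U (Pi.single s.1 (Ab N s.2)) : ℝ) : ℂ))))) =
        (((∑ s, dco c a s U : ℝ) : ℂ) + Complex.I * ((r * ∑ s : Site n L l ×
          ((Fin N × Fin N) × Bool), cf c a s U * dXL k J w U (Pi.single s.1 (Ab N s.2)) : ℝ) : ℂ) -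
            ((β * ∑ s : Site n L l × ((Fin N × Fin N) × Bool), cf c a s U *
              dS k U (Pi.single s.1 (Ab N s.2)) : ℝ) : ℂ)) * ew k β r J w U := by
      push_cast
      rw [Finset.mul_sum, Finset.mul_sum, Finset.mul_sum, ← Finset.sum_add_distrib,
        ← Finset.sum_sub_distrib, Finset.sum_mul]
      refine Finset.sum_congr rfl fun s _ => ?_
      ring
    rw [e4]
    have e5 : (∑ i ∈ J, (∑ u, w i u * md k U i u).re) = Xf k J w U := rfl
    rw [e5]
    unfold ew
    push_cast
    ring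

end main

/-- **C** -/
theorem t_C : S_C0 → S_C1 → S_C2 → S_C3 → S_C4 → S_C := fun _ _ _ _ _ => t_C'

end

end Run7.h182.MQ
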