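import Pool.Agent.Run7.h771.MQ.C23

/-!
# The projection onto the Lie algebra of `SU(N)`
-/

set_option linter.unusedSectionVars false
set_option linter.unusedVariables false

open MeasureTheory Matrix Filter Topology
open scoped Matrix.Norms.Frobenius ComplexConjugate

namespace Run7.h182.MQ

open Run7.h4.YM Run7.h630.ML Run7.h630.MQ Run7.h771.MQ

noncomputable section

variable {N : ℕ}

lemma nsq (A : Mt N) : ‖A‖ ^ 2 = ∑ i, ∑ j, ‖A i j‖ ^ 2 := by
  rw [Matrix.frobenius_norm_def, ← Real.sqrt_eq_rpow, Real.sq_sqrt]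
  · simp
  · positivity

lemma entry_norm (A : Mt N) (i j : Fin N) : ‖A i j‖ ≤ ‖A‖ := by
  have h1 : ‖A i j‖ ^ 2 ≤ ‖A‖ ^ 2 := by
    rw [nsq]
    calc ‖A i j‖ ^ 2 ≤ ∑ j', ‖A i j'‖ ^ 2 :=
          Finset.single_le_sum (f := fun j' => ‖A i j'‖ ^ 2) (fun _ _ => by positivity)
            (Finset.mem_univ j)
      _ ≤ _ := Finset.single_le_sum (f := fun i' => ∑ j', ‖A i' j'‖ ^ 2)
            (fun _ _ => by positivity) (Finset.mem_univ i)
  exact abs_le_of_sq_le_sq' h1 (norm_nonneg _) |>.2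

/-- the real inner product -/
def ip (A B : Mt N) : ℝ := (trace (Aᴴ * B)).re

lemma ip_self (A : Mt N) : ip A A = ‖A‖ ^ 2 := by
  unfold ip
  rw [nsq, trace, Complex.re_sum, Finset.sum_comm]
  refine Finset.sum_congr rfl fun i _ => ?_
  rw [Matrix.diag_apply, Matrix.mul_apply, Complex.re_sum]
  refine Finset.sum_congr rfl fun j _ => ?_
  rw [conjTranspose_apply, Complex.star_def, ← Complex.normSq_eq_conj_mul_self,
    Complex.ofReal_re, Complex.normSq_eq_norm_sq]

lemma ip_comm (A B : Mt N) : ip A B = ip B A := by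
  unfold ip
  have h : trace (Bᴴ * A) = star (trace (Aᴴ * B)) := by
    rw [← trace_conjTranspose, conjTranspose_mul, conjTranspose_conjTranspose]
  rw [h, Complex.star_def, Complex.conj_re]

lemma ip_add (A B C : Mt N) : ip A (B + C) = ip A B + ip A C := by
  unfold ip
  rw [mul_add, trace_add, Complex.add_re]

lemma pr_skew [NeZero N] (A : Mt N) : (pr A)ᴴ = -pr A := by
  unfold pr
  have h1 : star (trace (A - Aᴴ) / (2 * N)) = -(trace (A - Aᴴ) / (2 * N)) := by
    rw [star_div₀, ← trace_conjTranspose, conjTranspose_sub, conjTranspose_conjTranspose]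
    have : Aᴴ - A = -(A - Aᴴ) := by abel
    rw [this, trace_neg]
    simp
    ring
  rw [conjTranspose_sub, conjTranspose_smul, conjTranspose_smul, h1, conjTranspose_sub,
    conjTranspose_conjTranspose, conjTranspose_one]
  have h2 : star (1 / 2 : ℂ) = 1 / 2 := by simp
  rw [h2, neg_smul]
  have : Aᴴ - A = -(A - Aᴴ) := by abel
  rw [this, smul_neg]
  abel

lemma pr_trace [NeZero N] (A : Mt N) : trace (pr A) = 0 := by
  unfold pr
  have hN : (N : ℂ) ≠ 0 := by exact_mod_cast NeZero.ne N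
  rw [trace_sub, trace_smul, trace_smul, trace_one, Fintype.card_fin, smul_eq_mul, smul_eq_mul]
  field_simp
  ring

lemma pr_eq {A : Mt N} (h1 : Aᴴ = -A) (h2 : trace A = 0) : pr A = A := by
  unfold pr
  rw [h1, sub_neg_eq_add, trace_add, h2, add_zero, zero_div, zero_smul, sub_zero, ← two_smul ℂ A,
    smul_smul]
  norm_num

lemma ip_pr [NeZero N] (A : Mt N) : ip (pr A) (A - pr A) = 0 := by
  have h1 : A - pr A = (1 / 2 : ℂ) • (A + Aᴴ) + (trace (A - Aᴴ) / (2 * N)) • (1 : Mt N) := by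
    unfold pr
    have : A = (1 / 2 : ℂ) • (A + Aᴴ) + (1 / 2 : ℂ) • (A - Aᴴ) := by
      rw [← smul_add]
      have : A + Aᴴ + (A - Aᴴ) = (2 : ℂ) • A := by
        rw [two_smul]; abel
      rw [this, smul_smul]
      norm_num
    calc A - ((1 / 2 : ℂ) • (A - Aᴴ) - (trace (A - Aᴴ) / (2 * N)) • (1 : Mt N)) =
        ((1 / 2 : ℂ) • (A + Aᴴ) + (1 / 2 : ℂ) • (A - Aᴴ)) -
          ((1 / 2 : ℂ) • (A - Aᴴ) - (trace (A - Aᴴ) / (2 * N)) • (1 : Mt N)) := by rw [← this]
      _ = _ := by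
        generalize (1 / 2 : ℂ) • (A + Aᴴ) = P
        generalize (1 / 2 : ℂ) • (A - Aᴴ) = Q
        generalize (trace (A - Aᴴ) / (2 * N)) • (1 : Mt N) = R
        abel
  rw [h1, ip_add]
  have h2 : ip (pr A) ((trace (A - Aᴴ) / (2 * N)) • (1 : Mt N)) = 0 := by
    unfold ip
    rw [pr_skew, mul_smul_comm, mul_one, trace_smul, trace_neg, pr_trace]
    simp
  have h3 : ip (pr A) ((1 / 2 : ℂ) • (A + Aᴴ)) = 0 := by
    set H : Mt N := (1 / 2 : ℂ) • (A + Aᴴ) with hH
    have h4 : Hᴴ = H := by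
      rw [hH, conjTranspose_smul, conjTranspose_add, conjTranspose_conjTranspose, add_comm]
      simp
    have h5 : ip (pr A) H = -ip (pr A) H := by
      conv_lhs => rw [ip_comm]
      unfold ip
      rw [h4, pr_skew, neg_mul, trace_neg, Complex.neg_re, neg_neg, trace_mul_comm]
    linarith
  rw [h2, h3, add_zero]

lemma pr_norm [NeZero N] (A : Mt N) : ‖pr A‖ ≤ ‖A‖ := by
  have h1 : ‖A‖ ^ 2 = ‖pr A‖ ^ 2 + ‖A - pr A‖ ^ 2 := by
    rw [← ip_self, ← ip_self, ← ip_self]
    have e1 : A = pr A + (A - pr A) := by abel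
    calc ip A A = ip A (pr A) + ip A (A - pr A) := by
          rw [← ip_add, ← e1]
      _ = ip (pr A) (pr A + (A - pr A)) + ip (A - pr A) (pr A + (A - pr A)) := by
          rw [← e1, ip_comm A (pr A), ip_comm A (A - pr A)]
      _ = _ := by
          rw [ip_add, ip_add, ip_comm (A - pr A) (pr A), ip_pr]
          ring
  have h2 : ‖pr A‖ ^ 2 ≤ ‖A‖ ^ 2 := by
    rw [h1]; nlinarith [sq_nonneg ‖A - pr A‖]
  exact abs_le_of_sq_le_sq' h2 (norm_nonneg _) |>.2

end

end Run7.h182.MQ
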